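import Pool.Agent.MP_e3ece1_pr.Defs
import Pool.Agent.MP_e3ece1_pr.Vaughan

-- part MP_e3ece1_pr.Core
section

namespace Pool.Agent.MP_e3ece1_pr

open Finsupp Finset

/-- affine convolution -/
noncomputable def conv (c : ℤ) (ν₁ ν₂ : ℤ →₀ ℝ) : ℤ →₀ ℝ :=
  ν₁.sum fun x p => ν₂.sum fun b w => Finsupp.single (c * x + b) (p * w)

lemma law_succ (μ : ℤ →₀ ℝ) (a : ℤ) (n : ℕ) : law μ a (n + 1) = conv a (law μ a n) μ := rfl

lemma lc_conv {E : Type*} [AddCommGroup E] [Module ℝ E] (c : ℤ) (ν₁ ν₂ : ℤ →₀ ℝ) (g : ℤ → E) :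
    linearCombination ℝ g (conv c ν₁ ν₂) =
      linearCombination ℝ (fun x => linearCombination ℝ (fun b => g (c * x + b)) ν₂) ν₁ := by
  unfold conv
  rw [map_finsuppSum]
  simp only [map_finsuppSum, linearCombination_single]
  simp only [linearCombination_apply, Finsupp.sum, Finset.smul_sum, smul_smul]

lemma lc_indicator (ν : ℤ →₀ ℝ) (y : ℤ) :
    linearCombination ℝ (fun x => if x = y then (1 : ℝ) else 0) ν = ν y := by
  simp only [linearCombination_apply, Finsupp.sum, smul_eq_mul, mul_ite, mul_one, mul_zero]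
  rw [Finset.sum_ite_eq']
  split_ifs with h
  · rfl
  · exact (Finsupp.notMem_support_iff.mp h).symm

lemma ext_lc {ν₁ ν₂ : ℤ →₀ ℝ}
    (h : ∀ g : ℤ → ℝ, linearCombination ℝ g ν₁ = linearCombination ℝ g ν₂) : ν₁ = ν₂ := by
  ext y
  rw [← lc_indicator, ← lc_indicator, h]

lemma lc_mono {ν : ℤ →₀ ℝ} (hν : ∀ x, 0 ≤ ν x) {g₁ g₂ : ℤ → ℝ} (h : ∀ x, g₁ x ≤ g₂ x) :
    linearCombination ℝ g₁ ν ≤ linearCombination ℝ g₂ ν := by
  simp only [linearCombination_apply, Finsupp.sum, smul_eq_mul]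
  exact Finset.sum_le_sum fun x _ => mul_le_mul_of_nonneg_left (h x) (hν x)

lemma lc_nonneg {ν : ℤ →₀ ℝ} (hν : ∀ x, 0 ≤ ν x) {g : ℤ → ℝ} (h : ∀ x, 0 ≤ g x) :
    0 ≤ linearCombination ℝ g ν := by
  simp only [linearCombination_apply, Finsupp.sum, smul_eq_mul]
  exact Finset.sum_nonneg fun x _ => mul_nonneg (hν x) (h x)

lemma lc_const {E : Type*} [AddCommGroup E] [Module ℝ E] {ν : ℤ →₀ ℝ}
    (hν : (ν.sum fun _ p => p) = 1) (e : E) :
    linearCombination ℝ (fun _ => e) ν = e := by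
  simp only [linearCombination_apply, Finsupp.sum] at hν ⊢
  rw [← Finset.sum_smul, hν, one_smul]

lemma mass_eq_lc (ν : ℤ →₀ ℝ) :
    (ν.sum fun _ p => p) = linearCombination ℝ (fun _ => (1 : ℝ)) ν := by
  simp [linearCombination_apply]

lemma conv_nonneg (c : ℤ) {ν₁ ν₂ : ℤ →₀ ℝ} (h₁ : ∀ x, 0 ≤ ν₁ x) (h₂ : ∀ x, 0 ≤ ν₂ x) (y : ℤ) :
    0 ≤ conv c ν₁ ν₂ y := by
  rw [← lc_indicator, lc_conv]
  refine lc_nonneg h₁ fun x => lc_nonneg h₂ fun b => ?_
  split_ifs <;> norm_num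

lemma conv_mass (c : ℤ) {ν₁ ν₂ : ℤ →₀ ℝ} (h₁ : (ν₁.sum fun _ p => p) = 1)
    (h₂ : (ν₂.sum fun _ p => p) = 1) : ((conv c ν₁ ν₂).sum fun _ p => p) = 1 := by
  rw [mass_eq_lc, lc_conv]
  simp only [lc_const h₂, lc_const h₁]

lemma law_nonneg {μ : ℤ →₀ ℝ} (hμ : ∀ x, 0 ≤ μ x) (a : ℤ) (n : ℕ) : ∀ y, 0 ≤ law μ a n y := by
  induction n with
  | zero =>
    intro y
    simp only [law, Finsupp.single_apply]
    split_ifs <;> norm_num
  | succ n ih => exact conv_nonneg a ih hμ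

lemma law_mass {μ : ℤ →₀ ℝ} (hμ : (μ.sum fun _ p => p) = 1) (a : ℤ) (n : ℕ) :
    ((law μ a n).sum fun _ p => p) = 1 := by
  induction n with
  | zero => simp [law]
  | succ n ih => exact conv_mass a ih hμ

lemma law_add (μ : ℤ →₀ ℝ) (a : ℤ) (n m : ℕ) :
    law μ a (n + m) = conv (a ^ m) (law μ a n) (law μ a m) := by
  induction m with
  | zero =>
    refine ext_lc fun g => ?_
    rw [lc_conv]
    simp [law]
  | succ m ih =>
    refine ext_lc fun g => ?_
    rw [← add_assoc, law_succ, ih, law_succ, lc_conv, lc_conv, lc_conv]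
    congr 2
    ext x
    rw [lc_conv]
    congr 2
    ext y
    congr 2
    ext b
    congr 1
    ring

lemma entropy_eq (ν : ℤ →₀ ℝ) {S : Finset ℤ} (hS : ν.support ⊆ S) :
    entropy ν = ∑ x ∈ S, Real.negMulLog (ν x) := by
  unfold entropy
  rw [Finsupp.sum_of_support_subset ν hS _ (by simp)]
  refine Finset.sum_congr rfl fun x _ => ?_
  simp [Real.negMulLog, Real.log_inv]

lemma negMulLog_add_le {x y : ℝ} (hx : 0 ≤ x) (hy : 0 ≤ y) :
    Real.negMulLog (x + y) ≤ Real.negMulLog x + Real.negMulLog y := by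
  have key : ∀ {x y : ℝ}, 0 ≤ x → 0 ≤ y → x * Real.log x ≤ x * Real.log (x + y) := by
    intro x y hx hy
    rcases hx.eq_or_lt with h | h
    · simp [← h]
    · exact mul_le_mul_of_nonneg_left (Real.log_le_log h (by linarith)) hx
  have h1 := key hx hy
  have h2 := key hy hx
  rw [add_comm y x] at h2
  simp only [Real.negMulLog]
  nlinarith

lemma entropy_add_le {ν₁ ν₂ : ℤ →₀ ℝ} (h₁ : ∀ x, 0 ≤ ν₁ x) (h₂ : ∀ x, 0 ≤ ν₂ x) :
    entropy (ν₁ + ν₂) ≤ entropy ν₁ + entropy ν₂ := by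
  classical
  rw [entropy_eq (ν₁ + ν₂) Finsupp.support_add,
    entropy_eq ν₁ (Finset.subset_union_left (s₂ := ν₂.support)),
    entropy_eq ν₂ (Finset.subset_union_right (s₁ := ν₁.support)), ← Finset.sum_add_distrib]
  exact Finset.sum_le_sum fun x _ => negMulLog_add_le (h₁ x) (h₂ x)

lemma entropy_sum_le {ι : Type*} (s : Finset ι) (ν : ι → ℤ →₀ ℝ) (h : ∀ i x, 0 ≤ ν i x) :
    entropy (∑ i ∈ s, ν i) ≤ ∑ i ∈ s, entropy (ν i) := by
  classical
  induction s using Finset.induction_on with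
  | empty => simp [entropy]
  | insert i s hi ih =>
    rw [Finset.sum_insert hi, Finset.sum_insert hi]
    refine (entropy_add_le (h i) fun x => ?_).trans (by linarith)
    rw [Finsupp.finsetSum_apply]
    exact Finset.sum_nonneg fun j _ => h j x

lemma entropy_single (x : ℤ) (w : ℝ) : entropy (Finsupp.single x w) = Real.negMulLog w := by
  rw [entropy_eq _ Finsupp.support_single_subset]
  simp

lemma entropy_conv_le (c : ℤ) {ν₁ ν₂ : ℤ →₀ ℝ} (h₁ : ∀ x, 0 ≤ ν₁ x) (h₂ : ∀ x, 0 ≤ ν₂ x)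
    (m₁ : (ν₁.sum fun _ p => p) = 1) (m₂ : (ν₂.sum fun _ p => p) = 1) :
    entropy (conv c ν₁ ν₂) ≤ entropy ν₁ + entropy ν₂ := by
  have hs : ∀ (z : ℤ) (w : ℝ), 0 ≤ w → ∀ y, 0 ≤ (Finsupp.single z w : ℤ →₀ ℝ) y := by
    intro z w hw y
    rw [Finsupp.single_apply]
    split_ifs
    · exact hw
    · exact le_rfl
  unfold conv
  simp only [Finsupp.sum] at m₁ m₂ ⊢
  refine (entropy_sum_le _ _ fun x y => ?_).trans ?_
  · rw [Finsupp.finsetSum_apply]
    exact Finset.sum_nonneg fun b _ => hs _ _ (mul_nonneg (h₁ x) (h₂ b)) y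
  refine (Finset.sum_le_sum fun x _ => entropy_sum_le _ _
    fun b y => hs _ _ (mul_nonneg (h₁ x) (h₂ b)) y).trans ?_
  simp only [entropy_single, Real.negMulLog_mul, Finset.sum_add_distrib]
  rw [entropy_eq ν₁ subset_rfl, entropy_eq ν₂ subset_rfl]
  simp only [← Finset.sum_mul, ← Finset.mul_sum, m₁, m₂, one_mul, le_refl]

lemma entropy_ge {ν : ℤ →₀ ℝ} (h : ∀ x, 0 ≤ ν x) (m : (ν.sum fun _ p => p) = 1) {β : ℝ}
    (hβ : ∀ x, ν x ≤ β) : -Real.log β ≤ entropy ν := by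
  rw [entropy_eq ν subset_rfl]
  simp only [Finsupp.sum] at m
  calc -Real.log β = ∑ x ∈ ν.support, -(ν x) * Real.log β := by
        rw [← Finset.sum_mul, Finset.sum_neg_distrib, m]; ring
    _ ≤ _ := by
        refine Finset.sum_le_sum fun x hx => ?_
        have hx0 : 0 < ν x := lt_of_le_of_ne (h x) (Finsupp.mem_support_iff.mp hx).symm
        have := Real.log_le_log hx0 (hβ x)
        simp only [Real.negMulLog]
        nlinarith

lemma law_le_pow {μ : ℤ →₀ ℝ} (hμ : ∀ x, 0 ≤ μ x) {a : ℤ} (ha : a ≠ 0) {β : ℝ}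
    (hβ : ∀ y : ℤ, linearCombination ℝ (fun b => if a ∣ y - b then (1 : ℝ) else 0) μ ≤ β)
    (n : ℕ) : ∀ y, law μ a n y ≤ β ^ n := by
  have hβ0 : 0 ≤ β := le_trans (lc_nonneg hμ fun b => by split_ifs <;> norm_num) (hβ 0)
  induction n with
  | zero =>
    intro y
    simp only [law, Finsupp.single_apply, pow_zero]
    split_ifs <;> norm_num
  | succ n ih =>
    intro y
    rw [law_succ, ← lc_indicator, lc_conv]
    have hswap : linearCombination ℝ (fun x => linearCombination ℝ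
        (fun b => if a * x + b = y then (1 : ℝ) else 0) μ) (law μ a n) =
        linearCombination ℝ (fun b => linearCombination ℝ
        (fun x => if a * x + b = y then (1 : ℝ) else 0) (law μ a n)) μ := by
      simp only [linearCombination_apply, Finsupp.sum, smul_eq_mul, Finset.mul_sum]
      rw [Finset.sum_comm]
      refine Finset.sum_congr rfl fun _ _ => Finset.sum_congr rfl fun _ _ => by ring
    rw [hswap]
    have hb : ∀ b, linearCombination ℝ (fun x => if a * x + b = y then (1 : ℝ) else 0)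
        (law μ a n) ≤ β ^ n * (if a ∣ y - b then (1 : ℝ) else 0) := by
      intro b
      split_ifs with hd
      · obtain ⟨x₀, hx₀⟩ := hd
        have : (fun x => if a * x + b = y then (1 : ℝ) else 0) =
            fun x => if x = x₀ then (1 : ℝ) else 0 := by
          ext x
          congr 1
          apply propext
          constructor
          · intro h
            apply mul_left_cancel₀ ha
            linarith
          · rintro rfl
            linarith
        rw [this, lc_indicator, mul_one]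
        exact ih x₀
      · have : (fun x => if a * x + b = y then (1 : ℝ) else 0) = fun _ => 0 := by
          ext x
          rw [if_neg]
          intro h
          exact hd ⟨x, by linarith⟩
        rw [this]
        simp [linearCombination_apply]
    refine (lc_mono hμ hb).trans ?_
    have : linearCombination ℝ (fun b => β ^ n * (if a ∣ y - b then (1 : ℝ) else 0)) μ =
        β ^ n * linearCombination ℝ (fun b => if a ∣ y - b then (1 : ℝ) else 0) μ := by
      simp only [linearCombination_apply, Finsupp.sum, smul_eq_mul, Finset.mul_sum]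
      exact Finset.sum_congr rfl fun _ _ => by ring
    rw [this, pow_succ]
    exact mul_le_mul_of_nonneg_left (hβ y) (pow_nonneg hβ0 n)

/-- existence of the entropy rate, with a lower bound -/
lemma exists_rate {μ : ℤ →₀ ℝ} (hμ : ∀ x, 0 ≤ μ x) (m : (μ.sum fun _ p => p) = 1) {a : ℤ}
    (ha : a ≠ 0) {β : ℝ}
    (hβ : ∀ y : ℤ, linearCombination ℝ (fun b => if a ∣ y - b then (1 : ℝ) else 0) μ ≤ β) :
    ∃ H, IsEntropyRate μ a H ∧ -Real.log β ≤ H := by
  have hsub : Subadditive fun n => entropy (law μ a n) := by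
    intro n k
    show entropy (law μ a (n + k)) ≤ _
    rw [law_add]
    exact entropy_conv_le _ (law_nonneg hμ a n) (law_nonneg hμ a k) (law_mass m a n)
      (law_mass m a k)
  have hlow : ∀ n : ℕ, n * (-Real.log β) ≤ entropy (law μ a n) := by
    intro n
    have := entropy_ge (law_nonneg hμ a n) (law_mass m a n) (law_le_pow hμ ha hβ n)
    rw [Real.log_pow] at this
    linarith
  have hlow' : ∀ n : ℕ, 1 ≤ n → -Real.log β ≤ entropy (law μ a n) / n := by
    intro n hn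
    rw [le_div_iff₀ (by exact_mod_cast hn)]
    linarith [hlow n]
  have hbdd : BddBelow (Set.range fun n : ℕ => entropy (law μ a n) / n) := by
    refine ⟨min 0 (-Real.log β), ?_⟩
    rintro _ ⟨n, rfl⟩
    rcases Nat.eq_zero_or_pos n with rfl | hn
    · simp
    · exact (min_le_right _ _).trans (hlow' n hn)
  refine ⟨hsub.lim, hsub.tendsto_lim hbdd, ?_⟩
  exact ge_of_tendsto (hsub.tendsto_lim hbdd) (Filter.eventually_atTop.mpr ⟨1, hlow'⟩)

end Pool.Agent.MP_e3ece1_pr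

end

-- part MP_e3ece1_pr.Fourier
section

namespace Pool.Agent.MP_e3ece1_pr

open Finsupp Finset

/-- generating function on the unit circle -/
noncomputable def gen (ν : ℤ →₀ ℝ) (z : ℂ) : ℂ := linearCombination ℝ (fun x : ℤ => z ^ x) ν

lemma gen_law (μ : ℤ →₀ ℝ) (a : ℕ) (n : ℕ) :
    ∀ z : ℂ, z ≠ 0 → gen (law μ a n) z = ∏ j ∈ range n, gen μ (z ^ a ^ j) := by
  induction n with
  | zero => intro z _; simp [gen, law]
  | succ n ih =>
    intro z hz
    rw [Finset.prod_range_succ', law_succ]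
    have h1 : gen (conv a (law μ a n) μ) z = gen (law μ a n) (z ^ a) * gen μ z := by
      unfold gen
      rw [lc_conv]
      simp only [linearCombination_apply, Finsupp.sum, Finset.smul_sum]
      rw [Finset.sum_mul_sum]
      refine Finset.sum_congr rfl fun x _ => Finset.sum_congr rfl fun b _ => ?_
      rw [zpow_add₀ hz, zpow_mul, zpow_natCast]
      simp only [Complex.real_smul]
      ring
    rw [h1, ih _ (pow_ne_zero _ hz)]
    simp only [pow_zero, pow_one, ← pow_mul, pow_succ']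

lemma sum_range_zmod {E : Type*} [AddCommMonoid E] (q : ℕ) [NeZero q] (f : ZMod q → E) :
    ∑ y ∈ range q, f (y : ZMod q) = ∑ y : ZMod q, f y := by
  refine Finset.sum_nbij' (fun y => (y : ZMod q)) (fun y => y.val) (by simp) ?_ ?_ ?_ ?_
  · intro y _
    simpa using ZMod.val_lt y
  · intro y hy
    exact ZMod.val_cast_of_lt (Finset.mem_range.mp hy)
  · intro y _
    simp
  · intro y _
    rfl

lemma norm_gen_le_tv (μ : ℤ →₀ ℝ) (a : ℤ) (q n : ℕ) (hq : q ≠ 0) {z : ℂ} (hz : ‖z‖ = 1)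
    (hzq : z ^ q = 1) (hz1 : z ≠ 1) : ‖gen (law μ a n) z‖ ≤ 2 * tvDist μ a q n := by
  have : NeZero q := ⟨hq⟩
  have hz0 : z ≠ 0 := by
    rintro rfl
    simp at hz
  set ν := law μ a n
  set ν' := ν.mapDomain (fun x : ℤ => (x : ZMod q)) with hν'
  have h1 : gen ν z = ∑ y ∈ range q, (ν' (y : ZMod q) : ℂ) * z ^ y := by
    have e1 : gen ν z = linearCombination ℝ (fun y : ZMod q => z ^ y.val) ν' := by
      rw [hν', linearCombination_mapDomain]
      unfold gen
      congr 2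
      ext x
      simp only [Function.comp]
      rw [← zpow_natCast, ZMod.val_intCast]
      conv_lhs => rw [← Int.emod_add_mul_ediv x q]
      rw [zpow_add₀ hz0, zpow_mul, zpow_natCast, hzq, one_zpow, mul_one]
    rw [e1, linearCombination_apply, Finsupp.sum_fintype _ _ (by simp),
      ← sum_range_zmod q (fun y => ν' y • z ^ y.val)]
    refine Finset.sum_congr rfl fun y hy => ?_
    rw [ZMod.val_cast_of_lt (Finset.mem_range.mp hy), Complex.real_smul]
  have h2 : ∑ y ∈ range q, z ^ y = 0 := by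
    rw [geom_sum_eq hz1, hzq]
    simp
  have h3 : gen ν z = ∑ y ∈ range q, ((ν' (y : ZMod q) - 1 / (q : ℝ) : ℝ) : ℂ) * z ^ y := by
    rw [h1]
    simp only [Complex.ofReal_sub, sub_mul, Finset.sum_sub_distrib, ← Finset.mul_sum, h2]
    simp
  rw [h3]
  refine (norm_sum_le _ _).trans (le_of_eq ?_)
  unfold tvDist
  rw [← mul_assoc]
  norm_num only
  rw [one_mul]
  refine Finset.sum_congr rfl fun y _ => ?_
  rw [norm_mul, norm_pow, hz, one_pow, mul_one, Complex.norm_real, Real.norm_eq_abs]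

lemma norm_exp_sub_one_le (t : ℝ) (m : ℤ) :
    ‖Complex.exp (2 * Real.pi * Complex.I * t) - 1‖ ≤ 2 * Real.pi * |t - m| := by
  have h : Complex.exp (2 * Real.pi * Complex.I * t) =
      Complex.exp (Complex.I * ((2 * Real.pi * (t - m) : ℝ) : ℂ)) := by
    rw [Complex.exp_eq_exp_iff_exists_int]
    exact ⟨m, by push_cast; ring⟩
  rw [h]
  refine Real.norm_exp_I_mul_ofReal_sub_one_le.trans (le_of_eq ?_)
  rw [Real.norm_eq_abs, abs_mul, abs_of_pos Real.two_pi_pos]

lemma geom_tail_le {a : ℝ} (ha : 2 ≤ a) (n : ℕ) : ∑ j ∈ range n, a ^ j ≤ a ^ n := by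
  induction n with
  | zero => simp
  | succ n ih =>
    rw [Finset.sum_range_succ, pow_succ]
    have : 0 ≤ a ^ n := by positivity
    nlinarith

/-- main lower bound for the total variation distance -/
lemma tv_lower {μ : ℤ →₀ ℝ} {C : ℝ} (hC0 : 0 ≤ C)
    (hC : ∀ w : ℂ, ‖w‖ = 1 → Real.exp (-(C * ‖w - 1‖)) ≤ ‖gen μ w‖)
    {a : ℕ} (ha : 2 ≤ a) {q l n : ℕ} {u s : ℤ} (hl : 1 ≤ l) (hq : (q : ℤ) = u * a ^ l + s)
    (hs : |s| < q) (hn : |s| * (a : ℤ) ^ n ≤ q * a ^ l) :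
    Real.exp (-(6 * Real.pi * C)) / 2 ≤ tvDist μ a q n := by
  have hq0 : (0 : ℤ) < q := lt_of_le_of_lt (abs_nonneg s) hs
  have hq0' : q ≠ 0 := by omega
  have hqR : (0 : ℝ) < q := by exact_mod_cast hq0
  have haR : (2 : ℝ) ≤ a := by exact_mod_cast ha
  have hal : (2 : ℤ) ≤ (a : ℤ) ^ l := by
    calc (2 : ℤ) = 2 ^ 1 := by norm_num
      _ ≤ 2 ^ l := pow_le_pow_right₀ (by norm_num) hl
      _ ≤ _ := pow_le_pow_left₀ (by norm_num) (by exact_mod_cast ha) l
  have hs' := abs_lt.mp hs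
  have hu0 : 0 < u := by
    by_contra h
    push Not at h
    nlinarith
  have hu1 : u < q := by nlinarith
  set z : ℂ := Complex.exp (2 * Real.pi * Complex.I * ((u : ℝ) / q : ℝ)) with hz
  have hzpow : ∀ k : ℕ, z ^ k = Complex.exp (2 * Real.pi * Complex.I * ((k * u : ℝ) / q : ℝ)) := by
    intro k
    rw [hz, ← Complex.exp_nat_mul]
    congr 1
    push_cast
    ring
  have hnorm : ∀ t : ℝ, ‖Complex.exp (2 * Real.pi * Complex.I * t)‖ = 1 := by
    intro t
    rw [show 2 * (Real.pi : ℂ) * Complex.I * t = ((2 * Real.pi * t : ℝ) : ℂ) * Complex.I by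
      push_cast; ring]
    exact Complex.norm_exp_ofReal_mul_I _
  have hz1 : ‖z‖ = 1 := hnorm _
  have hzq : z ^ q = 1 := by
    rw [hzpow, Complex.exp_eq_one_iff]
    refine ⟨u, ?_⟩
    have : (q : ℂ) ≠ 0 := by exact_mod_cast hq0'
    push_cast
    field_simp
  have hzne : z ≠ 1 := by
    rw [hz, Ne, Complex.exp_eq_one_iff]
    rintro ⟨k, hk⟩
    have hq' : (q : ℂ) ≠ 0 := by exact_mod_cast hq0'
    have h2 : (2 * Real.pi * Complex.I : ℂ) ≠ 0 := Complex.two_pi_I_ne_zero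
    have : (u : ℂ) = k * q := by
      push_cast at hk
      field_simp at hk
      linear_combination hk
    have h3 : u = k * q := by exact_mod_cast this
    have hk0 : 0 < k := by
      by_contra h
      push Not at h
      nlinarith
    nlinarith
  have hz0 : z ≠ 0 := by
    intro h
    rw [h] at hz1
    simp at hz1
  have hmain := norm_gen_le_tv μ a q n hq0' hz1 hzq hzne
  rw [gen_law μ a n z hz0, norm_prod] at hmain
  -- bound each factor
  have hqR' : (q : ℝ) = u * a ^ l + s := by exact_mod_cast hq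
  have hsR : |(s : ℝ)| < q := by exact_mod_cast hs
  have hnR : |(s : ℝ)| * (a : ℝ) ^ n ≤ q * a ^ l := by exact_mod_cast hn
  have hapos : (0 : ℝ) < a := by linarith
  have hfac : ∀ j ∈ range n, ‖z ^ a ^ j - 1‖ ≤
      2 * Real.pi * ((if j < l then 2 * (a : ℝ) ^ j / a ^ l else 0) + (a : ℝ) ^ j / a ^ n) := by
    intro j _
    rw [hzpow]
    have hjn : 0 ≤ (a : ℝ) ^ j / a ^ n := by positivity
    split_ifs with hjl
    · refine (norm_exp_sub_one_le _ 0).trans ?_
      refine mul_le_mul_of_nonneg_left ?_ Real.two_pi_pos.le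
      have hu0R : (0 : ℝ) < u := by exact_mod_cast hu0
      rw [Int.cast_zero, sub_zero, abs_of_nonneg (by positivity)]
      refine le_trans ?_ (le_add_of_nonneg_right hjn)
      rw [div_le_div_iff₀ hqR (by positivity)]
      push_cast
      have := (abs_lt.mp hsR).1
      have h5 : (u : ℝ) * a ^ l ≤ 2 * q := by linarith
      have h6 : (0 : ℝ) ≤ a ^ j := by positivity
      nlinarith
    · push Not at hjl
      obtain ⟨i, rfl⟩ := Nat.exists_eq_add_of_le hjl
      refine (norm_exp_sub_one_le _ ((a : ℤ) ^ i)).trans ?_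
      refine mul_le_mul_of_nonneg_left ?_ Real.two_pi_pos.le
      have : ((a ^ (l + i) : ℕ) : ℝ) * u / q - (((a : ℤ) ^ i : ℤ) : ℝ) = -(s * a ^ i / q) := by
        push_cast
        field_simp
        rw [hqR']
        ring
      rw [this, abs_neg, abs_div, abs_mul, abs_of_pos hqR, abs_of_pos (pow_pos hapos i), zero_add,
        div_le_div_iff₀ hqR (by positivity), pow_add]
      have h6 : (0 : ℝ) ≤ a ^ i := by positivity
      nlinarith
  have hsum : ∑ j ∈ range n, ‖z ^ a ^ j - 1‖ ≤ 6 * Real.pi := by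
    refine (Finset.sum_le_sum hfac).trans ?_
    rw [← Finset.mul_sum, Finset.sum_add_distrib]
    have e1 : ∑ j ∈ range n, (if j < l then 2 * (a : ℝ) ^ j / a ^ l else 0) ≤ 2 := by
      rw [← Finset.sum_filter]
      calc _ ≤ ∑ j ∈ range l, 2 * (a : ℝ) ^ j / a ^ l := by
            refine Finset.sum_le_sum_of_subset_of_nonneg ?_ fun _ _ _ => by positivity
            intro j hj
            exact Finset.mem_range.mpr (Finset.mem_filter.mp hj).2
        _ = 2 * (∑ j ∈ range l, (a : ℝ) ^ j) / a ^ l := by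
            rw [Finset.mul_sum, Finset.sum_div]
        _ ≤ 2 := by
            rw [div_le_iff₀ (by positivity)]
            linarith [geom_tail_le haR l]
    have e2 : ∑ j ∈ range n, (a : ℝ) ^ j / a ^ n ≤ 1 := by
      rw [← Finset.sum_div, div_le_one (by positivity)]
      exact geom_tail_le haR n
    nlinarith [Real.pi_pos]
  have hprod : Real.exp (-(6 * Real.pi * C)) ≤ ∏ j ∈ range n, ‖gen μ (z ^ a ^ j)‖ := by
    calc Real.exp (-(6 * Real.pi * C)) ≤ Real.exp (∑ j ∈ range n, -(C * ‖z ^ a ^ j - 1‖)) := by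
          apply Real.exp_le_exp.mpr
          rw [Finset.sum_neg_distrib, ← Finset.mul_sum]
          nlinarith
      _ = ∏ j ∈ range n, Real.exp (-(C * ‖z ^ a ^ j - 1‖)) := Real.exp_sum _ _
      _ ≤ _ := Finset.prod_le_prod (fun _ _ => (Real.exp_pos _).le)
          fun j _ => hC _ (by rw [norm_pow, hz1, one_pow])
  linarith

end Pool.Agent.MP_e3ece1_pr

end

-- part MP_e3ece1_pr.Reduce
section

namespace Pool.Agent.MP_e3ece1_pr

open Finsupp Finset

/-- normalising constant -/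
noncomputable def zed (ρ : ℝ) : ℝ := ∑ k ∈ range 6, ρ ^ k

/-- truncated geometric law on `0, ..., 5` -/
noncomputable def mu (ρ : ℝ) : ℤ →₀ ℝ := ∑ k ∈ range 6, Finsupp.single (k : ℤ) (ρ ^ k / zed ρ)

lemma lc_mu {E : Type*} [AddCommGroup E] [Module ℝ E] (ρ : ℝ) (g : ℤ → E) :
    linearCombination ℝ g (mu ρ) = ∑ k ∈ range 6, (ρ ^ k / zed ρ) • g k := by
  simp [mu, map_sum]

lemma zed_pos {ρ : ℝ} (h : 0 < ρ) : 0 < zed ρ :=
  Finset.sum_pos (fun _ _ => pow_pos h _) ⟨0, by simp⟩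

lemma mu_nonneg {ρ : ℝ} (h : 0 < ρ) (x : ℤ) : 0 ≤ mu ρ x := by
  rw [← lc_indicator, lc_mu]
  refine Finset.sum_nonneg fun k _ => ?_
  have := zed_pos h
  rw [smul_eq_mul]
  split_ifs <;> positivity

lemma mu_mass {ρ : ℝ} (h : 0 < ρ) : ((mu ρ).sum fun _ p => p) = 1 := by
  rw [mass_eq_lc, lc_mu]
  simp only [smul_eq_mul, mul_one]
  rw [← Finset.sum_div]
  exact div_self (zed_pos h).ne'

lemma mu_admissible {ρ : ℝ} (h : 0 < ρ) : Admissible (mu ρ) := by
  refine ⟨mu_nonneg h, mu_mass h, ?_⟩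
  have hz := zed_pos h
  have h0 : (0 : ℤ) ∈ (mu ρ).support := by
    rw [Finsupp.mem_support_iff, ← lc_indicator, lc_mu]
    simp [hz.ne']
  have h1 : (1 : ℤ) ∈ (mu ρ).support := by
    rw [Finsupp.mem_support_iff, ← lc_indicator, lc_mu]
    simp [hz.ne', h.ne']
  have hd : ((mu ρ).support ×ˢ (mu ρ).support).gcd (fun z : ℤ × ℤ => z.1 - z.2) ∣ 1 := by
    have := Finset.gcd_dvd (f := fun z : ℤ × ℤ => z.1 - z.2)
      (Finset.mem_product.mpr (⟨h1, h0⟩ : ((1 : ℤ), (0 : ℤ)).1 ∈ _ ∧ ((1 : ℤ), (0 : ℤ)).2 ∈ _))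
    simpa using this
  rw [← Finset.normalize_gcd]
  exact normalize_eq_one.mpr (isUnit_of_dvd_one hd)

lemma mu_residue {ρ : ℝ} (h : 0 < ρ) (h1 : ρ < 1) {a : ℤ} (ha : a = 2 ∨ a = 3) (y : ℤ) :
    linearCombination ℝ (fun b => if a ∣ y - b then (1 : ℝ) else 0) (mu ρ) ≤
      1 / (a * ρ ^ 5) := by
  have hz := zed_pos h
  have hz6 : 6 * ρ ^ 5 ≤ zed ρ := by
    calc 6 * ρ ^ 5 = ∑ _k ∈ range 6, ρ ^ 5 := by simp
      _ ≤ _ := Finset.sum_le_sum fun k hk =>
          pow_le_pow_of_le_one h.le h1.le (by have := Finset.mem_range.mp hk; omega)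
  rw [lc_mu]
  have hle : ∑ k ∈ range 6, (ρ ^ k / zed ρ) • (if a ∣ y - (k : ℤ) then (1 : ℝ) else 0) ≤
      (∑ k ∈ range 6, (if a ∣ y - (k : ℤ) then (1 : ℝ) else 0)) / zed ρ := by
    rw [Finset.sum_div]
    refine Finset.sum_le_sum fun k _ => ?_
    split_ifs
    · rw [smul_eq_mul, mul_one]
      exact div_le_div_of_nonneg_right (pow_le_one₀ h.le h1.le) hz.le
    · simp
  refine hle.trans ?_
  have hc : (∑ k ∈ range 6, (if a ∣ y - (k : ℤ) then (1 : ℝ) else 0)) * a ≤ 6 := by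
    simp only [Finset.sum_range_succ, Finset.sum_range_zero]
    rcases ha with rfl | rfl
    · push_cast
      split_ifs <;> first | omega | norm_num
    · push_cast
      split_ifs <;> first | omega | norm_num
  have ha0 : (0 : ℝ) < a := by rcases ha with rfl | rfl <;> norm_num
  rw [div_le_div_iff₀ hz (by positivity)]
  have : 0 < ρ ^ 5 := by positivity
  nlinarith

lemma mu_gen_lower {ρ : ℝ} (h : 0 < ρ) (h1 : ρ < 1) :
    ∃ C : ℝ, 0 ≤ C ∧ ∀ w : ℂ, ‖w‖ = 1 → Real.exp (-(C * ‖w - 1‖)) ≤ ‖gen (mu ρ) w‖ := by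
  have hz := zed_pos h
  set c₀ : ℝ := (1 - ρ) / 2 with hc₀
  have hc₀pos : 0 < c₀ := by rw [hc₀]; linarith
  have hc₀lt : c₀ < 1 := by rw [hc₀]; linarith
  have hlog : 0 < -Real.log c₀ := by linarith [Real.log_neg hc₀pos hc₀lt]
  refine ⟨10 + 10 * (-Real.log c₀), by positivity, fun w hw => ?_⟩
  have hgen : gen (mu ρ) w = ∑ k ∈ range 6, ((ρ ^ k / zed ρ : ℝ) : ℂ) * w ^ k := by
    unfold gen
    rw [lc_mu]
    simp only [zpow_natCast, Complex.real_smul]
  have hA : c₀ ≤ ‖gen (mu ρ) w‖ := by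
    have e1 : (1 - (ρ : ℂ) * w) * gen (mu ρ) w * (zed ρ : ℂ) = 1 - (ρ * w) ^ 6 := by
      have hz' : (zed ρ : ℂ) ≠ 0 := by exact_mod_cast hz.ne'
      rw [hgen]
      simp only [Finset.sum_range_succ, Finset.sum_range_zero]
      push_cast
      field_simp
      ring
    have e2 : 1 - ρ ^ 6 ≤ ‖1 - ((ρ : ℂ) * w) ^ 6‖ := by
      have := norm_sub_norm_le (1 : ℂ) (((ρ : ℂ) * w) ^ 6)
      rwa [norm_one, norm_pow, norm_mul, hw, mul_one, Complex.norm_real, Real.norm_eq_abs,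
        abs_of_pos h] at this
    have e3 : ‖1 - (ρ : ℂ) * w‖ ≤ 2 := by
      refine (norm_sub_le _ _).trans ?_
      rw [norm_one, norm_mul, hw, mul_one, Complex.norm_real, Real.norm_eq_abs, abs_of_pos h]
      linarith
    have e4 : 1 - ρ ^ 6 = (1 - ρ) * zed ρ := by
      simp only [zed, Finset.sum_range_succ, Finset.sum_range_zero]
      ring
    rw [← e1, norm_mul, norm_mul, Complex.norm_real, Real.norm_eq_abs, abs_of_pos hz, e4] at e2
    have e5 : 1 - ρ ≤ ‖1 - (ρ : ℂ) * w‖ * ‖gen (mu ρ) w‖ := le_of_mul_le_mul_right e2 hz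
    have := norm_nonneg (gen (mu ρ) w)
    rw [hc₀]
    nlinarith
  have hB : 1 - 5 * ‖w - 1‖ ≤ ‖gen (mu ρ) w‖ := by
    have hsum : ∑ k ∈ range 6, (ρ ^ k / zed ρ) = 1 := by
      rw [← Finset.sum_div]
      exact div_self hz.ne'
    have e1 : gen (mu ρ) w - 1 = ∑ k ∈ range 6, ((ρ ^ k / zed ρ : ℝ) : ℂ) * (w ^ k - 1) := by
      simp only [mul_sub, Finset.sum_sub_distrib, mul_one]
      rw [hgen, ← Complex.ofReal_sum, hsum, Complex.ofReal_one]
    have e2 : ∀ k : ℕ, ‖w ^ k - 1‖ ≤ k * ‖w - 1‖ := by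
      intro k
      induction k with
      | zero => simp
      | succ k ih =>
        have : w ^ (k + 1) - 1 = w * (w ^ k - 1) + (w - 1) := by ring
        rw [this]
        refine (norm_add_le _ _).trans ?_
        rw [norm_mul, hw, one_mul]
        push_cast
        linarith
    have e3 : ‖gen (mu ρ) w - 1‖ ≤ 5 * ‖w - 1‖ := by
      rw [e1]
      refine (norm_sum_le _ _).trans ?_
      calc _ ≤ ∑ k ∈ range 6, (ρ ^ k / zed ρ) * (5 * ‖w - 1‖) := by
            refine Finset.sum_le_sum fun k hk => ?_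
            rw [norm_mul, Complex.norm_real, Real.norm_eq_abs, abs_of_pos (by positivity)]
            refine mul_le_mul_of_nonneg_left ((e2 k).trans ?_) (by positivity)
            refine mul_le_mul_of_nonneg_right ?_ (norm_nonneg _)
            have : k ≤ 5 := by have := Finset.mem_range.mp hk; omega
            exact_mod_cast this
        _ = _ := by rw [← Finset.sum_mul, hsum, one_mul]
    have := norm_sub_norm_le (1 : ℂ) (gen (mu ρ) w)
    rw [norm_sub_rev, norm_one] at this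
    linarith
  have hw0 := norm_nonneg (w - 1)
  by_cases hs : ‖w - 1‖ ≤ 1 / 10
  · refine le_trans ?_ hB
    set x := 5 * ‖w - 1‖ with hx
    have hx0 : 0 ≤ x := by positivity
    have hx1 : x ≤ 1 / 2 := by linarith
    have e1 : Real.exp (-(2 * x)) ≤ 1 - x := by
      rw [Real.exp_neg, inv_le_comm₀ (Real.exp_pos _) (by linarith)]
      refine le_trans ?_ (Real.add_one_le_exp _)
      rw [inv_le_iff_one_le_mul₀ (by linarith)]
      nlinarith
    refine le_trans (Real.exp_le_exp.mpr ?_) e1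
    nlinarith
  · refine le_trans ?_ hA
    rw [← Real.exp_log hc₀pos]
    apply Real.exp_le_exp.mpr
    rw [Real.exp_log hc₀pos]
    push Not at hs
    nlinarith

/-- `q` is within `a ^ l * q ^ (-1/K)` of a multiple of `a ^ l` -/
def Near (K a q : ℕ) : Prop :=
  ∃ (l : ℕ) (u s : ℤ), 1 ≤ l ∧ (q : ℤ) = u * a ^ l + s ∧ |s| < q ∧ |s| ^ K * q ≤ (a : ℤ) ^ (l * K)

lemma reduce {K : ℕ} (hK : 1 ≤ K) :
    ∃ μ : ℤ →₀ ℝ, Admissible μ ∧ ∃ H₂ H₃ : ℝ, IsEntropyRate μ 2 H₂ ∧ IsEntropyRate μ 3 H₃ ∧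
      0 < H₂ ∧ 0 < H₃ ∧ ∃ ε : ℝ, 0 < ε ∧ ∀ q : ℕ, 3 ^ (4 * K) ≤ q → Near K 2 q → Near K 3 q →
        (∃ n : ℕ, (1 + ε) * Real.log q / H₂ ≤ n ∧ ε < tvDist μ 2 q n) ∧
        (∃ n : ℕ, (1 + ε) * Real.log q / H₃ ≤ n ∧ ε < tvDist μ 3 q n) := by
  have hKR : (1 : ℝ) ≤ K := by exact_mod_cast hK
  have hl2 : 0 < Real.log 2 := Real.log_pos (by norm_num)
  have hl23 : Real.log 2 ≤ Real.log 3 := Real.log_le_log (by norm_num) (by norm_num)
  set ρ : ℝ := Real.exp (-(Real.log 2 / (5 * (4 * K + 1)))) with hρ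
  have h0 : 0 < ρ := Real.exp_pos _
  have h1 : ρ < 1 := by
    rw [hρ, Real.exp_lt_one_iff]
    have : 0 < Real.log 2 / (5 * (4 * K + 1)) := by positivity
    linarith
  obtain ⟨C, hC0, hC⟩ := mu_gen_lower h0 h1
  set ε : ℝ := min (1 / (4 * K)) (Real.exp (-(6 * Real.pi * C)) / 4) with hε
  have hε0 : 0 < ε := lt_min (by positivity) (by positivity)
  have key : ∀ a : ℕ, a = 2 ∨ a = 3 → ∃ H, IsEntropyRate (mu ρ) a H ∧ 0 < H ∧
      ∀ q : ℕ, 3 ^ (4 * K) ≤ q → Near K a q →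
        ∃ n : ℕ, (1 + ε) * Real.log q / H ≤ n ∧ ε < tvDist (mu ρ) a q n := by
    intro a ha
    have ha' : (a : ℤ) = 2 ∨ (a : ℤ) = 3 := by omega
    have ha2 : 2 ≤ a := by omega
    have haR : (2 : ℝ) ≤ a := by exact_mod_cast ha2
    have ha3 : (a : ℝ) ≤ 3 := by exact_mod_cast (by omega : a ≤ 3)
    obtain ⟨H, hH, hHl⟩ := exists_rate (mu_nonneg h0) (mu_mass h0) (a := a) (by omega)
      (mu_residue h0 h1 ha')
    have hla : Real.log 2 ≤ Real.log a := Real.log_le_log (by norm_num) haR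
    have hla3 : Real.log a ≤ Real.log 3 := Real.log_le_log (by linarith) ha3
    have hH2 : Real.log a * (4 * K) ≤ H * (4 * K + 1) := by
      rw [one_div, Real.log_inv, neg_neg, Real.log_mul (by positivity) (by positivity),
        Real.log_pow, hρ, Real.log_exp, Int.cast_natCast] at hHl
      have e : ((5 : ℕ) : ℝ) * -(Real.log 2 / (5 * (4 * K + 1))) * (4 * K + 1) = -Real.log 2 := by
        push_cast
        field_simp
      nlinarith
    have hHpos : 0 < H := by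
      by_contra hh
      push Not at hh
      nlinarith
    refine ⟨H, hH, hHpos, fun q hq ⟨l, u, s, hl, hqe, hs, hnear⟩ => ?_⟩
    have hq3 : ((3 : ℝ)) ^ (4 * K) ≤ q := by exact_mod_cast hq
    have hq0 : (0 : ℝ) < q := lt_of_lt_of_le (by positivity) hq3
    have hlq : 4 * K * Real.log 3 ≤ Real.log q := by
      have := Real.log_le_log (by positivity) hq3
      rw [Real.log_pow] at this
      push_cast at this
      exact this
    have hlq0 : 0 ≤ Real.log q := le_trans (by nlinarith) hlq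
    set n := ⌈(1 + ε) * Real.log q / H⌉₊ with hn
    refine ⟨n, Nat.le_ceil _, ?_⟩
    have hn1 : (n : ℝ) < (1 + ε) * Real.log q / H + 1 := Nat.ceil_lt_add_one (by positivity)
    have hεK : ε ≤ 1 / (4 * K) := min_le_left _ _
    have hεK' : ε * (4 * K) ≤ 1 := by rwa [le_div_iff₀ (by positivity)] at hεK
    have hn2 : (n : ℝ) * K * Real.log a ≤ (K + 1) * Real.log q := by
      have e1 : ((n : ℝ) - 1) * H ≤ (1 + ε) * Real.log q := by
        rw [← le_div_iff₀ hHpos]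
        linarith
      rcases Nat.eq_zero_or_pos n with h | h
      · rw [h]
        simp only [Nat.cast_zero, zero_mul]
        positivity
      have hn0 : (0 : ℝ) ≤ n - 1 := by
        have : (1 : ℝ) ≤ n := by exact_mod_cast h
        linarith
      have e2 : ((n : ℝ) - 1) * (Real.log a * (4 * K)) ≤ (1 + ε) * Real.log q * (4 * K + 1) := by
        calc _ ≤ ((n : ℝ) - 1) * (H * (4 * K + 1)) := mul_le_mul_of_nonneg_left hH2 hn0
          _ = ((n : ℝ) - 1) * H * (4 * K + 1) := by ring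
          _ ≤ _ := mul_le_mul_of_nonneg_right e1 (by positivity)
      have e3 : (1 + ε) * (4 * K + 1) ≤ 4 * K + 3 := by nlinarith
      have e4 : (1 + ε) * Real.log q * (4 * K + 1) ≤ (4 * K + 3) * Real.log q := by nlinarith
      have e5 : K * Real.log a ≤ K * Real.log 3 := mul_le_mul_of_nonneg_left hla3 (by linarith)
      nlinarith
    have hn3 : (a : ℤ) ^ (n * K) ≤ (q : ℤ) ^ (K + 1) := by
      have : (a : ℝ) ^ (n * K) ≤ (q : ℝ) ^ (K + 1) := by
        rw [← Real.log_le_log_iff (by positivity) (by positivity), Real.log_pow, Real.log_pow]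
        push_cast
        exact hn2
      exact_mod_cast this
    have hq0' : (0 : ℤ) < q := by exact_mod_cast hq0
    have hn4 : |s| * (a : ℤ) ^ n ≤ q * a ^ l := by
      rw [← pow_le_pow_iff_left₀ (n := K) (by positivity) (by positivity) (by omega)]
      refine le_of_mul_le_mul_right ?_ hq0'
      calc (|s| * (a : ℤ) ^ n) ^ K * q = (|s| ^ K * q) * a ^ (n * K) := by
            rw [mul_pow, ← pow_mul]; ring
        _ ≤ (a : ℤ) ^ (l * K) * (q : ℤ) ^ (K + 1) :=
            mul_le_mul hnear hn3 (by positivity) (by positivity)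
        _ = _ := by rw [mul_pow, ← pow_mul]; ring
    have := tv_lower hC0 hC ha2 hl hqe hs hn4
    have hε2 : ε ≤ Real.exp (-(6 * Real.pi * C)) / 4 := min_le_right _ _
    have := Real.exp_pos (-(6 * Real.pi * C))
    linarith
  obtain ⟨H₂, h21, h22, h23⟩ := key 2 (Or.inl rfl)
  obtain ⟨H₃, h31, h32, h33⟩ := key 3 (Or.inr rfl)
  exact ⟨mu ρ, mu_admissible h0, H₂, H₃, h21, h31, h22, h32, ε, hε0,
    fun q hq hn2 hn3 => ⟨h23 q hq hn2, h33 q hq hn3⟩⟩

end Pool.Agent.MP_e3ece1_pr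

end

-- part MP_e3ece1_pr.Primes
section

namespace Pool.Agent.MP_e3ece1_pr

open Finset ArithmeticFunction

/-- the standard character of the reals -/
noncomputable def ee (t : ℝ) : ℂ := Complex.exp (2 * Real.pi * Complex.I * t)

lemma ee_add (s t : ℝ) : ee (s + t) = ee s * ee t := by
  unfold ee
  rw [← Complex.exp_add]
  congr 1
  push_cast
  ring

lemma ee_pow (t : ℝ) (n : ℕ) : ee t ^ n = ee (n * t) := by
  unfold ee
  rw [← Complex.exp_nat_mul]
  congr 1
  push_cast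
  ring

lemma ee_conj (t : ℝ) : (starRingEnd ℂ) (ee t) = ee (-t) := by
  unfold ee
  rw [← Complex.exp_conj]
  congr 1
  simp [Complex.conj_ofReal, map_ofNat]

lemma ee_norm (t : ℝ) : ‖ee t‖ = 1 := by
  unfold ee
  rw [show 2 * (Real.pi : ℂ) * Complex.I * t = ((2 * Real.pi * t : ℝ) : ℂ) * Complex.I by
    push_cast; ring]
  exact Complex.norm_exp_ofReal_mul_I _

lemma ee_int (m : ℤ) : ee m = 1 := by
  unfold ee
  rw [Complex.exp_eq_one_iff]
  exact ⟨m, by push_cast; ring⟩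

lemma four_dist (t : ℝ) : 4 * |t - round t| ≤ ‖ee t - 1‖ := by
  have h : ee t = Complex.exp (Complex.I * ((2 * Real.pi * (t - round t) : ℝ) : ℂ)) := by
    unfold ee
    rw [Complex.exp_eq_exp_iff_exists_int]
    exact ⟨round t, by push_cast; ring⟩
  rw [h, Complex.norm_exp_I_mul_ofReal_sub_one, Real.norm_eq_abs, abs_mul, abs_two]
  have h1 := abs_sub_round t
  have hp := Real.pi_pos
  have h2 : |2 * Real.pi * (t - round t) / 2| = Real.pi * |t - round t| := by
    rw [show 2 * Real.pi * (t - round t) / 2 = Real.pi * (t - round t) by ring, abs_mul,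
      abs_of_pos hp]
  have := Real.mul_abs_le_abs_sin (x := 2 * Real.pi * (t - round t) / 2) (by rw [h2]; nlinarith)
  rw [h2, ← mul_assoc, div_mul_cancel₀ _ hp.ne'] at this
  linarith

lemma good_ee {A B H Q : ℕ} (hA : 0 < A) (hAB : A ≤ B) (hco : Nat.Coprime A B) (hQ : Q * H ≤ A)
    {h₁ h₂ : ℤ} (b₁ : |h₁| < H) (b₂ : |h₂| < H) (hne : h₁ ≠ 0 ∨ h₂ ≠ 0) :
    Good (ee (h₁ / A + h₂ / B)) (A * B) Q := by
  have hB : 0 < B := by omega
  have hAR : (0 : ℝ) < A := by exact_mod_cast hA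
  have hBR : (0 : ℝ) < B := by exact_mod_cast hB
  have ht : ∀ d : ℕ, (d : ℝ) * (h₁ / A + h₂ / B) =
      ((d * (h₁ * B + h₂ * A) : ℤ) : ℝ) / (A * B) := by
    intro d
    push_cast
    field_simp
  refine ⟨ee_norm _, fun d => ?_, fun d hd hdQ h1 => ?_⟩
  · rw [ee_pow, ht]
    set c : ℤ := d * (h₁ * B + h₂ * A)
    set m := round ((c : ℝ) / (A * B)) with hm
    by_cases hc : c = A * B * m
    · left
      rw [hc]
      push_cast
      rw [mul_div_cancel_left₀ _ (by positivity), ee_int]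
    · right
      have h4 := four_dist ((c : ℝ) / (A * B))
      rw [← hm] at h4
      have e : (c : ℝ) / (A * B) - m = ((c - A * B * m : ℤ) : ℝ) / (A * B) := by
        push_cast
        field_simp
      have h5 : (1 : ℝ) ≤ |((c - A * B * m : ℤ) : ℝ)| := by
        exact_mod_cast Int.one_le_abs (sub_ne_zero.mpr hc)
      rw [e, abs_div, abs_of_pos (by positivity : (0 : ℝ) < A * B), ← mul_div_assoc,
        div_le_iff₀ (by positivity)] at h4
      linarith
  · rw [ee_pow, ht] at h1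
    have h4 := four_dist (((d * (h₁ * B + h₂ * A) : ℤ) : ℝ) / (A * B))
    rw [h1, sub_self, norm_zero] at h4
    set m := round ((((d * (h₁ * B + h₂ * A) : ℤ) : ℝ)) / (A * B))
    have h5 : (((d * (h₁ * B + h₂ * A) : ℤ) : ℝ)) / (A * B) - m = 0 :=
      abs_eq_zero.mp (le_antisymm (by linarith) (abs_nonneg _))
    rw [sub_eq_zero, div_eq_iff (by positivity)] at h5
    have h6 : (d : ℤ) * (h₁ * B + h₂ * A) = m * (A * B) := by exact_mod_cast h5
    have hco' : IsCoprime (A : ℤ) (B : ℤ) := Nat.isCoprime_iff_coprime.mpr hco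
    have hsmall : ∀ h : ℤ, |h| < H → |(d : ℤ) * h| < A := by
      intro h hh
      rw [abs_mul, Nat.abs_cast]
      have : (Q : ℤ) * H ≤ A := by exact_mod_cast hQ
      have hd' : (d : ℤ) < Q := by exact_mod_cast hdQ
      nlinarith [abs_nonneg h]
    have hd0 : (d : ℤ) ≠ 0 := by omega
    have d1 : (A : ℤ) ∣ d * h₁ :=
      hco'.dvd_of_dvd_mul_right ⟨m * B - d * h₂, by linear_combination h6⟩
    have d2 : (B : ℤ) ∣ d * h₂ :=
      hco'.symm.dvd_of_dvd_mul_right ⟨m * A - d * h₁, by linear_combination h6⟩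
    have z1 := Int.eq_zero_of_abs_lt_dvd d1 (hsmall _ b₁)
    have z2 := Int.eq_zero_of_abs_lt_dvd d2 ((hsmall _ b₂).trans_le (by exact_mod_cast hAB))
    rcases hne with h | h
    · exact h ((mul_eq_zero.mp z1).resolve_left hd0)
    · exact h ((mul_eq_zero.mp z2).resolve_left hd0)

lemma fejer {ι : Type*} (I : Finset ι) (w : ι → ℂ) (hw : ∀ i, ‖w i‖ = 1) (N : ℕ) {E : ℝ}
    (hE0 : 0 ≤ E) (hE : ∀ i ∈ I, ∀ j ∈ I, i ≠ j →
      ‖∑ n ∈ Ioc 0 N, (vonMangoldt n : ℂ) * (w i * (starRingEnd ℂ) (w j)) ^ n‖ ≤ E) :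
    |∑ n ∈ Ioc 0 N, vonMangoldt n * ‖∑ i ∈ I, w i ^ n‖ ^ 2 -
      I.card * ∑ n ∈ Ioc 0 N, vonMangoldt n| ≤ I.card ^ 2 * E := by
  classical
  have e : ((∑ n ∈ Ioc 0 N, vonMangoldt n * ‖∑ i ∈ I, w i ^ n‖ ^ 2 -
      I.card * ∑ n ∈ Ioc 0 N, vonMangoldt n : ℝ) : ℂ) =
      ∑ i ∈ I, ∑ j ∈ I, if i = j then 0 else
        ∑ n ∈ Ioc 0 N, (vonMangoldt n : ℂ) * (w i * (starRingEnd ℂ) (w j)) ^ n := by
    push_cast
    simp only [← Complex.mul_conj', map_sum, sum_mul_sum]
    simp only [mul_sum]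
    rw [sum_comm, ← mul_sum, ← nsmul_eq_mul, ← sum_const, ← sum_sub_distrib]
    refine sum_congr rfl fun i hi => ?_
    rw [sum_comm, sub_eq_iff_eq_add]
    have : ∑ n ∈ Ioc 0 N, (vonMangoldt n : ℂ) =
        ∑ j ∈ I, if i = j then ∑ n ∈ Ioc 0 N, (vonMangoldt n : ℂ) else 0 := by
      rw [sum_ite_eq, if_pos hi]
    rw [this, ← sum_add_distrib]
    refine sum_congr rfl fun j _ => ?_
    split_ifs with hij
    · subst hij
      rw [zero_add]
      refine sum_congr rfl fun n _ => ?_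
      rw [Complex.mul_conj', norm_pow, hw]
      simp
    · rw [add_zero]
      refine sum_congr rfl fun n _ => ?_
      rw [mul_pow, map_pow]
  rw [← Real.norm_eq_abs, ← Complex.norm_real, e]
  refine (norm_sum_le _ _).trans ?_
  calc _ ≤ ∑ _i ∈ I, ∑ _j ∈ I, E := by
        refine sum_le_sum fun i hi => (norm_sum_le _ _).trans (sum_le_sum fun j hj => ?_)
        split_ifs with hij
        · simpa using hE0
        · exact hE i hi j hj hij
    _ = _ := by simp only [sum_const, nsmul_eq_mul]; ring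

lemma geom_norm_le {x : ℂ} (hx : ‖x‖ = 1) (H : ℕ) : ‖∑ h ∈ range H, x ^ h‖ ≤ H := by
  refine (norm_sum_le _ _).trans (le_of_eq ?_)
  simp [hx]

lemma geom_norm_le' {x : ℂ} (hx : ‖x‖ = 1) (H : ℕ) : ‖∑ h ∈ range H, x ^ h‖ * ‖x - 1‖ ≤ 2 := by
  rw [← norm_mul, geom_sum_mul]
  refine (norm_sub_le _ _).trans (le_of_eq ?_)
  rw [norm_pow, hx]
  norm_num

lemma near_of_close {a l T K q : ℕ} (ha : 0 < a) (hl : 1 ≤ l) (hT : 0 < T) (hq : a ^ l < q)
    (hqT : q ≤ T ^ K) (h : ‖ee (q / (a ^ l : ℕ)) - 1‖ * T ≤ 4) : Near K a q := by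
  set A := a ^ l with hA
  have hA0 : (0 : ℝ) < A := by exact_mod_cast pow_pos ha l
  set u := round ((q : ℝ) / A) with hu
  have h4 := four_dist ((q : ℝ) / A)
  rw [← hu] at h4
  have e : (q : ℝ) / A - u = ((q - u * A : ℤ) : ℝ) / A := by
    push_cast
    field_simp
  have hTR : (0 : ℝ) < T := by exact_mod_cast hT
  have h5 : |((q - u * A : ℤ) : ℝ)| * T ≤ A := by
    rw [e, abs_div, abs_of_pos hA0] at h4
    have : |((q - u * A : ℤ) : ℝ)| / A * T ≤ 1 := by nlinarith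
    rwa [div_mul_eq_mul_div, div_le_one hA0] at this
  have h6 : |(q - u * A : ℤ)| * T ≤ A := by exact_mod_cast h5
  have hT1 : (1 : ℤ) ≤ T := by exact_mod_cast hT
  refine ⟨l, u, q - u * A, hl, ?_, ?_, ?_⟩
  · rw [hA]; push_cast; ring
  · have : (A : ℤ) < q := by exact_mod_cast hq
    nlinarith [abs_nonneg (q - u * A : ℤ)]
  · calc |(q - u * A : ℤ)| ^ K * q ≤ |(q - u * A : ℤ)| ^ K * (T : ℤ) ^ K := by
          refine mul_le_mul_of_nonneg_left ?_ (by positivity)
          exact_mod_cast hqT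
      _ = (|(q - u * A : ℤ)| * T) ^ K := (mul_pow _ _ _).symm
      _ ≤ (A : ℤ) ^ K := pow_le_pow_left₀ (by positivity) h6 K
      _ = _ := by rw [hA, pow_mul]; push_cast; rfl

end Pool.Agent.MP_e3ece1_pr

end

-- part MP_e3ece1_pr.PrimeNear
section

namespace Pool.Agent.MP_e3ece1_pr

open Finset ArithmeticFunction

lemma sieve_ineq {α β : ℝ} {T N P : ℕ} (hT : 0 < T) {E : ℝ} (hE0 : 0 ≤ E)
    (hE : ∀ h₁ h₂ : ℤ, |h₁| < (T ^ 2 : ℕ) → |h₂| < (T ^ 2 : ℕ) → (h₁ ≠ 0 ∨ h₂ ≠ 0) →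
      ‖∑ n ∈ Ioc 0 N, (vonMangoldt n : ℂ) * ee (h₁ * α + h₂ * β) ^ n‖ ≤ E)
    (hno : ∀ q, q.Prime → P < q → q ≤ N →
      4 < ‖ee (q * α) - 1‖ * T ∨ 4 < ‖ee (q * β) - 1‖ * T) :
    Chebyshev.psi N / 2 ≤ (T : ℝ) ^ 4 *
      (2 * E + (Chebyshev.psi N - Chebyshev.theta N + Chebyshev.theta P)) := by
  set H := T ^ 2 with hH
  have hH0 : 0 < H := by positivity
  have hHR : (H : ℝ) = (T : ℝ) ^ 2 := by rw [hH]; push_cast; rfl
  have hH1 : (1 : ℝ) ≤ H := by exact_mod_cast hH0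
  have hpsi : Chebyshev.psi N = ∑ n ∈ Ioc 0 N, vonMangoldt n := by
    rw [Chebyshev.psi, Nat.floor_natCast]
  have fej : ∀ H₁ H₂ : ℕ, H₁ ≤ H → H₂ ≤ H →
      |∑ n ∈ Ioc 0 N, vonMangoldt n * (‖∑ h ∈ range H₁, ee (n * α) ^ h‖ ^ 2 *
          ‖∑ h ∈ range H₂, ee (n * β) ^ h‖ ^ 2) - H₁ * H₂ * Chebyshev.psi N| ≤
        ((H₁ : ℝ) * H₂) ^ 2 * E := by
    intro H₁ H₂ l₁ l₂
    have := fejer (range H₁ ×ˢ range H₂) (fun p => ee (p.1 * α + p.2 * β)) (fun _ => ee_norm _)
      N hE0 (fun i hi j hj hij => by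
        rw [ee_conj, ← ee_add]
        obtain ⟨i1, i2⟩ := mem_product.mp hi
        obtain ⟨j1, j2⟩ := mem_product.mp hj
        rw [mem_range] at i1 i2 j1 j2
        have := hE (i.1 - j.1) (i.2 - j.2) (by rw [abs_lt]; omega) (by rw [abs_lt]; omega) (by
          by_contra hc
          push Not at hc
          exact hij (Prod.ext (by omega) (by omega)))
        have e : (i.1 : ℝ) * α + i.2 * β + -(j.1 * α + j.2 * β) =
            ((i.1 - j.1 : ℤ) : ℝ) * α + ((i.2 - j.2 : ℤ) : ℝ) * β := by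
          push_cast
          ring
        rw [e]
        exact this)
    rw [card_product, card_range, card_range, ← hpsi] at this
    push_cast at this
    have e : ∀ n : ℕ, ‖∑ p ∈ range H₁ ×ˢ range H₂, ee (p.1 * α + p.2 * β) ^ n‖ ^ 2 =
        ‖∑ h ∈ range H₁, ee (n * α) ^ h‖ ^ 2 * ‖∑ h ∈ range H₂, ee (n * β) ^ h‖ ^ 2 := by
      intro n
      rw [← mul_pow, ← norm_mul, sum_mul_sum, sum_product]
      congr 2
      refine sum_congr rfl fun a _ => sum_congr rfl fun b _ => ?_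
      rw [ee_pow, ee_pow, ee_pow, ← ee_add]
      congr 1
      ring
    simp only [e] at this
    exact this
  set G₁ : ℕ → ℝ := fun n => ‖∑ h ∈ range H, ee (n * α) ^ h‖ ^ 2 with hG₁
  set G₂ : ℕ → ℝ := fun n => ‖∑ h ∈ range H, ee (n * β) ^ h‖ ^ 2 with hG₂
  have f12 := (abs_le.mp (fej H H le_rfl le_rfl)).1
  have f1 := (abs_le.mp (fej H 1 le_rfl hH0)).2
  have f2 := (abs_le.mp (fej 1 H hH0 le_rfl)).2
  simp only [range_one, sum_singleton, pow_zero, norm_one, one_pow, mul_one, one_mul,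
    Nat.cast_one] at f1 f2
  have G0 : ∀ n, 0 ≤ G₁ n ∧ 0 ≤ G₂ n := fun n => ⟨sq_nonneg _, sq_nonneg _⟩
  have GH : ∀ n, G₁ n ≤ H ^ 2 ∧ G₂ n ≤ H ^ 2 := fun n =>
    ⟨pow_le_pow_left₀ (norm_nonneg _) (geom_norm_le (ee_norm _) H) 2,
      pow_le_pow_left₀ (norm_nonneg _) (geom_norm_le (ee_norm _) H) 2⟩
  have small : ∀ t : ℝ, 4 < ‖ee t - 1‖ * T → ‖∑ h ∈ range H, ee t ^ h‖ ^ 2 ≤ H / 4 := by
    intro t ht
    have h1 := geom_norm_le' (ee_norm t) H
    have h2 := norm_nonneg (∑ h ∈ range H, ee t ^ h)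
    have hTR : (0 : ℝ) < T := by exact_mod_cast hT
    have h3 : ‖∑ h ∈ range H, ee t ^ h‖ ≤ T / 2 := by nlinarith
    rw [hHR]
    nlinarith
  have upper : ∑ n ∈ Ioc 0 N, vonMangoldt n * (G₁ n * G₂ n - H / 4 * (G₁ n + G₂ n)) ≤
      (H : ℝ) ^ 4 * (Chebyshev.psi N - Chebyshev.theta N + Chebyshev.theta P) := by
    rw [Chebyshev.psi_sub_theta_eq_sum_not_prime, Chebyshev.theta, Nat.floor_natCast,
      Nat.floor_natCast]
    have h1 : ∑ n ∈ Ioc 0 N, (if n.Prime ∧ n ≤ P then Real.log n else 0) ≤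
        ∑ p ∈ Ioc 0 P with p.Prime, Real.log p := by
      rw [← sum_filter]
      refine sum_le_sum_of_subset_of_nonneg ?_ fun _ _ _ => Real.log_natCast_nonneg _
      intro n hn
      simp only [mem_filter, mem_Ioc] at hn ⊢
      exact ⟨⟨hn.1.1, hn.2.2⟩, hn.2.1⟩
    refine le_trans ?_ (mul_le_mul_of_nonneg_left (add_le_add_right h1 _) (by positivity))
    rw [sum_filter, ← sum_add_distrib, mul_sum]
    refine sum_le_sum fun n hn => ?_
    have hΛ : 0 ≤ vonMangoldt n := vonMangoldt_nonneg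
    obtain ⟨g1, g2⟩ := G0 n
    obtain ⟨g3, g4⟩ := GH n
    have hF : G₁ n * G₂ n - H / 4 * (G₁ n + G₂ n) ≤ (H : ℝ) ^ 4 := by
      have : G₁ n * G₂ n ≤ H ^ 2 * H ^ 2 := mul_le_mul g3 g4 g2 (by positivity)
      have : 0 ≤ H / 4 * (G₁ n + G₂ n) := by positivity
      nlinarith
    by_cases hp : n.Prime
    · by_cases hP : n ≤ P
      · rw [if_neg (not_not.mpr hp), if_pos ⟨hp, hP⟩, zero_add, ← vonMangoldt_apply_prime hp,
          mul_comm]
        exact mul_le_mul_of_nonneg_right hF hΛ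
      · rw [if_neg (not_not.mpr hp), if_neg (fun h => hP h.2), add_zero, mul_zero]
        refine mul_nonpos_of_nonneg_of_nonpos hΛ ?_
        rcases hno n hp (by omega) (mem_Ioc.mp hn).2 with h | h
        · have : G₁ n ≤ H / 4 := small _ h
          nlinarith
        · have : G₂ n ≤ H / 4 := small _ h
          nlinarith
    · rw [if_pos hp, if_neg (fun h => hp h.1), add_zero, mul_comm]
      exact mul_le_mul_of_nonneg_right hF hΛ
  have split : ∑ n ∈ Ioc 0 N, vonMangoldt n * (G₁ n * G₂ n - H / 4 * (G₁ n + G₂ n)) =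
      ∑ n ∈ Ioc 0 N, vonMangoldt n * (G₁ n * G₂ n) -
        H / 4 * (∑ n ∈ Ioc 0 N, vonMangoldt n * G₁ n + ∑ n ∈ Ioc 0 N, vonMangoldt n * G₂ n) := by
    rw [← sum_add_distrib, mul_sum, ← sum_sub_distrib]
    exact sum_congr rfl fun n _ => by ring
  rw [split] at upper
  have e4 : (T : ℝ) ^ 4 = (H : ℝ) ^ 2 := by rw [hHR]; ring
  rw [e4]
  have hH2 : (0 : ℝ) < (H : ℝ) ^ 2 := by positivity
  refine le_of_mul_le_mul_left ?_ hH2
  have f3 : (H : ℝ) / 4 * (∑ n ∈ Ioc 0 N, vonMangoldt n * G₁ n +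
      ∑ n ∈ Ioc 0 N, vonMangoldt n * G₂ n) ≤ H / 4 * (2 * (H * Chebyshev.psi N + H ^ 2 * E)) :=
    mul_le_mul_of_nonneg_left (by linarith) (by positivity)
  have f4 : (H : ℝ) ^ 3 * E ≤ H ^ 4 * E :=
    mul_le_mul_of_nonneg_right (pow_le_pow_right₀ hH1 (by norm_num)) hE0
  have f5 : 0 ≤ (H : ℝ) ^ 4 * E := by positivity
  nlinarith

lemma exists_prime_near {k : ℕ} (hk : 1 ≤ k) (hk2 : 2 ^ 22 * k ^ 2 ≤ 2 ^ k) :
    ∃ q : ℕ, q.Prime ∧ 2 ^ (48 * k) < q ∧ Near 170 2 q ∧ Near 170 3 q := by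
  set T := 2 ^ k with hT
  have hT0 : 0 < T := by positivity
  have hTR : (2 : ℝ) ^ 22 * k ^ 2 ≤ T := by exact_mod_cast hk2
  have hkR : (1 : ℝ) ≤ k := by exact_mod_cast hk
  have hT2 : (2 : ℝ) ^ 22 ≤ T := by nlinarith
  have hT1 : (1 : ℝ) ≤ T := le_trans (by norm_num) hT2
  have hT1' : 1 < T := by
    have : (1 : ℝ) < T := lt_of_lt_of_le (by norm_num) hT2
    exact_mod_cast this
  have hA : 2 ^ (24 * k) = T ^ 24 := by rw [hT, ← pow_mul, mul_comm]
  have hP : 2 ^ (48 * k) = T ^ 48 := by rw [hT, ← pow_mul, mul_comm]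
  have hB : 3 ^ (24 * k) ≤ T ^ 48 := by
    rw [← hP, show 48 * k = 2 * (24 * k) by ring, pow_mul 2 2]
    exact Nat.pow_le_pow_left (by norm_num) _
  have hAB : 2 ^ (24 * k) ≤ 3 ^ (24 * k) := Nat.pow_le_pow_left (by norm_num) _
  by_contra hcon
  push Not at hcon
  set L := Real.log ((T ^ 170 : ℕ) : ℝ) with hL
  have hL0 : 0 ≤ L := Real.log_natCast_nonneg _
  have hLk : L ≤ 170 * k := by
    rw [hL, hT]
    push_cast
    rw [Real.log_pow, Real.log_pow]
    push_cast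
    nlinarith [Real.log_two_lt_d9]
  set E : ℝ := 2 ^ 17 * k ^ 2 * (T : ℝ) ^ 165 with hE
  have main := sieve_ineq (α := 1 / (2 ^ (24 * k) : ℕ)) (β := 1 / (3 ^ (24 * k) : ℕ))
    (N := T ^ 170) (P := T ^ 48) hT0 (E := E) (by positivity) (fun h₁ h₂ b₁ b₂ hne => by
      have hg := good_ee (A := 2 ^ (24 * k)) (B := 3 ^ (24 * k)) (H := T ^ 2) (Q := T ^ 22)
        (by positivity) hAB (Nat.Coprime.pow _ _ (by norm_num)) (by rw [hA, ← pow_add]) b₁ b₂ hne
      rw [mul_one_div, mul_one_div]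
      set M : ℝ := ((2 ^ (24 * k) : ℕ) : ℝ) * ((3 ^ (24 * k) : ℕ) : ℝ) with hM
      have hM1 : 1 ≤ M := by
        rw [hM]
        exact_mod_cast Nat.succ_le_of_lt (by positivity)
      have hM2 : M ≤ (T : ℝ) ^ 72 := by
        rw [hM, hA]
        have : T ^ 24 * 3 ^ (24 * k) ≤ T ^ 72 := by
          calc _ ≤ T ^ 24 * T ^ 48 := Nat.mul_le_mul_left _ hB
            _ = _ := by ring
        exact_mod_cast this
      have hv := vinogradov hg hM1 (N := T ^ 170) (U := T ^ 10) (R := T ^ 85) (J := 85 * k + 1)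
        (by positivity) (by rw [← pow_add]; exact Nat.pow_lt_pow_right hT1' (by norm_num))
        (by rw [← pow_add]; exact Nat.pow_le_pow_right hT0 (by norm_num))
        (by rw [hT, ← pow_mul]; exact Nat.pow_lt_pow_right (by norm_num) (by omega))
        (Nat.pow_le_pow_right hT0 (by norm_num)) (by rw [← pow_add])
        (E := 2 * (T : ℝ) ^ 165) (by positivity) (by
          push_cast
          have e1 : ((T : ℝ) ^ 170) ^ 2 * (1 / T ^ 22 + 2 / T ^ 10) = T ^ 318 + 2 * T ^ 330 := by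
            field_simp
          have e2 : (T : ℝ) ^ 170 * T ^ 85 * M ≤ T ^ 330 := by
            calc _ ≤ (T : ℝ) ^ 170 * T ^ 85 * T ^ 72 := by gcongr
              _ = T ^ 327 := by ring
              _ ≤ _ := pow_le_pow_right₀ hT1 (by norm_num)
          have e3 : (T : ℝ) ^ 318 ≤ T ^ 330 := pow_le_pow_right₀ hT1 (by norm_num)
          have e4 : (2 * (T : ℝ) ^ 165) ^ 2 = 4 * T ^ 330 := by ring
          rw [e1, e4]
          linarith)
      refine hv.trans ?_
      rw [← hL]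
      push_cast
      have e1 : (T : ℝ) ^ 10 * T ^ 10 * M ≤ T ^ 165 := by
        calc _ ≤ (T : ℝ) ^ 10 * T ^ 10 * T ^ 72 := by gcongr
          _ = T ^ 92 := by ring
          _ ≤ _ := pow_le_pow_right₀ hT1 (by norm_num)
      have hp : (0 : ℝ) < T ^ 165 := by positivity
      calc _ ≤ (3 * (T : ℝ) ^ 165 + 2 * ((85 * k + 1) * (2 * T ^ 165))) * (170 * k) := by gcongr
        _ = ((340 * k + 7) * (170 * k)) * T ^ 165 := by ring
        _ ≤ _ := by
          rw [hE]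
          refine mul_le_mul_of_nonneg_right ?_ hp.le
          nlinarith)
    (fun q hq h1 h2 => by
      by_contra hc
      push Not at hc
      rw [mul_one_div, mul_one_div] at hc
      refine hcon q hq (by omega) (near_of_close (by norm_num) (by omega) hT0 ?_ h2 hc.1)
        (near_of_close (by norm_num) (by omega) hT0 ?_ h2 hc.2)
      · omega
      · omega)
  have hN1 : (1 : ℝ) ≤ ((T ^ 170 : ℕ) : ℝ) := by exact_mod_cast Nat.succ_le_of_lt (by positivity)
  have l1 := Chebyshev.psi_ge (T ^ 170)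
  have l2 := Chebyshev.psi_sub_theta_le hN1
  have l3 := Chebyshev.theta_le_log4_mul_x (x := ((T ^ 48 : ℕ) : ℝ)) (by positivity)
  have hsq : √((T ^ 170 : ℕ) : ℝ) = (T : ℝ) ^ 85 := by
    push_cast
    rw [show (T : ℝ) ^ 170 = (T ^ 85) ^ 2 by ring, Real.sqrt_sq (by positivity)]
  have hlog : Real.log (((T ^ 170 : ℕ) : ℝ) + 1) ≤ 1 + L := by
    calc _ ≤ Real.log (2 * ((T ^ 170 : ℕ) : ℝ)) := Real.log_le_log (by positivity) (by linarith)
      _ = Real.log 2 + L := Real.log_mul (by norm_num) (by positivity)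
      _ ≤ _ := by linarith [Real.log_two_lt_d9]
  have hlog4 : Real.log 4 ≤ 2 := by
    rw [show (4 : ℝ) = 2 ^ 2 by norm_num, Real.log_pow]
    push_cast
    linarith [Real.log_two_lt_d9]
  rw [hsq, ← hL] at l2
  set W : ℝ := k ^ 2 * (T : ℝ) ^ 165 with hW
  have hk2' : (k : ℝ) ≤ k ^ 2 := by nlinarith
  have p85 : (T : ℝ) ^ 85 ≤ T ^ 165 := pow_le_pow_right₀ hT1 (by norm_num)
  have p48 : (T : ℝ) ^ 48 ≤ T ^ 165 := pow_le_pow_right₀ hT1 (by norm_num)
  have p0 : (1 : ℝ) ≤ T ^ 165 := one_le_pow₀ hT1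
  have p4 : (1 : ℝ) ≤ T ^ 4 := one_le_pow₀ hT1
  have hW1 : (T : ℝ) ^ 165 ≤ W := by rw [hW]; nlinarith
  have m1 : 2 * (T : ℝ) ^ 85 * L ≤ 340 * W := by
    calc _ ≤ 2 * (T : ℝ) ^ 165 * (170 * k ^ 2) := by gcongr; linarith
      _ = _ := by rw [hW]; ring
  have m2 : Real.log 4 * ((T ^ 48 : ℕ) : ℝ) ≤ 2 * W := by
    push_cast
    have : (0 : ℝ) ≤ T ^ 48 := by positivity
    nlinarith
  have m3 : 1 + L ≤ 171 * W := by rw [hW]; nlinarith
  have hEW : E = 2 ^ 17 * W := by rw [hE, hW]; ring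
  have m4 : Chebyshev.psi ((T ^ 170 : ℕ) : ℝ) / 2 ≤ (T : ℝ) ^ 4 * ((2 ^ 18 + 342) * W) := by
    refine main.trans (mul_le_mul_of_nonneg_left ?_ (by positivity))
    rw [hEW]
    linarith
  have m5 : (2 : ℝ) ^ 22 * (T ^ 4 * W) ≤ ((T ^ 170 : ℕ) : ℝ) := by
    push_cast
    calc (2 : ℝ) ^ 22 * ((T : ℝ) ^ 4 * W) = ((2 : ℝ) ^ 22 * (k : ℝ) ^ 2) * (T : ℝ) ^ 169 := by
          rw [hW]; ring
      _ ≤ (T : ℝ) * (T : ℝ) ^ 169 := by gcongr
      _ = _ := by ring
  have m6 : W ≤ T ^ 4 * W := by nlinarith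
  have m7 : (0 : ℝ) < T ^ 4 * W := by nlinarith
  have := Real.log_two_gt_d9
  nlinarith

theorem infinite_prime_near : {q : ℕ | q.Prime ∧ Near 170 2 q ∧ Near 170 3 q}.Infinite := by
  refine Set.infinite_of_forall_exists_gt fun P => ?_
  obtain ⟨q, hq, h1, h2, h3⟩ := exists_prime_near (k := 4 * (P + 13)) (by omega) (by
    have : P + 13 ≤ 2 ^ (P + 13) := Nat.lt_two_pow_self.le
    calc 2 ^ 22 * (4 * (P + 13)) ^ 2 ≤ 2 ^ 22 * (4 * 2 ^ (P + 13)) ^ 2 := by gcongr
      _ = 2 ^ (2 * P + 52) := by ring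
      _ ≤ _ := Nat.pow_le_pow_right (by norm_num) (by omega))
  refine ⟨q, ⟨hq, h2, h3⟩, ?_⟩
  have : 48 * (4 * (P + 13)) < 2 ^ (48 * (4 * (P + 13))) := Nat.lt_two_pow_self
  omega

end Pool.Agent.MP_e3ece1_pr

end
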